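import Pool.Agent.K4H92.HD.Luzin

/-!
# `𝔟(≠*_I) ≤ 𝔡(≠*_J)` if `non(ℳ) = ℵ₁`

The definitions are in `Pool/Agent/K4H92/HD/Core.lean` (`BS`, `EvDiff`, `Bad`, `bNe`, `dNe`) and
`Pool/Agent/K4H92/HD/Main.lean` (`cov`, `nullSets`, `meagreSets`, `sigmaCompactSets`).

Proof. Let `θ = τ⁺ ≤ cov(I)` and let `φ_η` (`η < θ`) be a sequence such that for every real `t` there
is `β(t) < θ` such that `t` is infinitely often equal to `φ_η` for all `η ≥ β(t)`. Let `D` be
dominating for `≠*` everywhere. Given `g₀` there is `g ∈ D` with `g(x) ≠* φ_{β(g₀(x))}` for all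
`x`, hence `β(g₀(x)) < β(g(x))`; enumerate the ordinals below `β(g(x))` by `τ`; as `τ < cov(I)`,
some index works on a set which is not in `I`. Hence the functions `x ↦ φ(e_{β(g(x))}(t))` (`g ∈ D`,
`t < τ`) are unbounded for `≠*_I`. From a nonmeagre set of size `ℵ₁` one gets such a sequence of
length `ω₁`: the member `φ_β` uses on its `n`-th block the guesses of the first `n` members of an
enumeration of the first `β` members of the set. Finally `𝔡(≠*_∅) ≤ 𝔡(≠*_J)` (in ZFC) by a
Bernstein partition.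
-/

set_option autoImplicit false

open Cardinal MeasureTheory

namespace Pool.Agent.Results.MP_531aff_lc.NonmeagreSets

open Pool.Agent.K4H92.HD

/-- Let `μ` be a probability measure on Baire space without point masses, `I` one of the ideals
of the `μ`-null sets, of the meagre sets and of the subsets of `σ`-compact sets, and `J` one of
these or the trivial ideal `{∅}`.
(1) If there is a nonmeagre set of size at most `ℵ₁`, then `𝔟(≠*_I) ≤ 𝔡(≠*_J)`.
(2) More generally this holds if `τ` is an infinite cardinal with `τ⁺ ≤ cov(I)` and there is a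
sequence `φ` of reals of length `τ⁺` such that for every real `t` the indices `η` with
`φ η ≠* t` are bounded in `τ⁺`. -/
theorem result (μ : Measure BS) [IsProbabilityMeasure μ] (h0 : ∀ x : BS, μ {x} = 0)
    (I J : Set (Set BS)) (hI : I = nullSets μ ∨ I = meagreSets ∨ I = sigmaCompactSets)
    (hJ : J = nullSets μ ∨ J = meagreSets ∨ J = sigmaCompactSets ∨ J = {∅}) :
    ((∃ S : Set BS, #S ≤ ℵ₁ ∧ ¬ IsMeagre S) → bNe I ≤ dNe J) ∧
      ∀ τ : Cardinal.{0}, ℵ₀ ≤ τ → Order.succ τ ≤ cov I →
        (∃ φ : (Order.succ τ).ord.ToType → BS, ∀ t : BS, ∃ a, ∀ η, EvDiff (φ η) t → η < a) →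
          bNe I ≤ dNe J := by
  have hIg : Good I := by
    rcases hI with rfl | rfl | rfl
    · exact good_null μ h0
    · exact good_meagre
    · exact good_sigmaCompact
  have hle : dNe {∅} ≤ dNe J := by
    rcases hJ with rfl | rfl | rfl | rfl
    · exact dNe_empty_le (good_null μ h0)
    · exact dNe_empty_le good_meagre
    · exact dNe_empty_le good_sigmaCompact
    · exact le_rfl
  have hcovc : cov I ≤ 𝔠 := by
    refine (csInf_le' ⟨Set.range (fun x : BS => ({x} : Set BS)), ?_, ?_, rfl⟩ : cov I ≤ _).trans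
      (mk_range_le.trans mk_BS.le)
    · rintro _ ⟨x, rfl⟩
      exact hIg.single x
    · apply Set.eq_univ_of_forall
      intro x
      exact ⟨{x}, ⟨x, rfl⟩, rfl⟩
  have gen : ∀ τ : Cardinal.{0}, ℵ₀ ≤ τ → Order.succ τ ≤ cov I →
      (∃ φ : (Order.succ τ).ord.ToType → BS, ∀ t : BS, ∃ a, ∀ η, EvDiff (φ η) t → η < a) →
        bNe I ≤ dNe J := by
    rintro τ hτ hcov ⟨φ, hφ⟩
    exact (luzin_le hτ φ hφ (hcov.trans hcovc) hcov).trans hle
  refine ⟨?_, gen⟩
  rintro ⟨S, hS, hm⟩
  exact gen ℵ₀ le_rfl (by rw [succ_aleph0]; exact aleph_one_le_cov hIg) (exists_luzin_seq S hS hm)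

end Pool.Agent.Results.MP_531aff_lc.NonmeagreSets
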