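import Pool.Agent.K4H92.HD.Succ

/-!
# `𝔠 = τ⁺ = 2^τ` implies `𝔟(≠*_I) ≤ 𝔡(≠*_J)`

The definitions are in `Pool/Agent/K4H92/HD/Core.lean` (`BS`, `EvDiff`, `Bad`, `bNe`, `dNe`) and
`Pool/Agent/K4H92/HD/Main.lean` (`nullSets`, `meagreSets`, `sigmaCompactSets`).

Proof. Let `D` be dominating for `≠*` everywhere, `ρ : ω^ω ≃ 𝔠`, and let `B_y` (`y < 𝔠`) be a base of
`I`. As `2^τ = 𝔠 = τ⁺`, for `Z ∈ {𝔠, τ}` there are `Y_β : 𝔠 → Z` (`β < τ`) such that for each
`Ψ : τ → Z` there is `a < 𝔠` such that for all `α > a` there is `β < τ` with `Y_β(α) = Ψ(β)`: let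
`ψ_ξ` (`ξ < 𝔠`) enumerate the functions from `τ` to `Z` and let `Y_β(α) = ψ_ξ(β)` for the `β`-th
ordinal `ξ` below `α`.

* Case 1: for all `M_g : 𝔠 → τ` (`g ∈ D`) there is `col : 𝔠 → τ` which agrees with each `M_g`
  somewhere. Take different points `x(y, a, β) ∉ B_y`. The functions
  `x(y, a, β) ↦ ρ⁻¹(Y_β(ρ(g(a))))` (`g ∈ D`) are unbounded for `≠*_I`: otherwise there is `c` with
  `ρ(g(a)) ≤ c(y_g, a)` for all `a` and `g`; write `a = (y', z) ∈ 𝔠 × 𝔠`, let `M_g(z) < τ` be the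
  index of `ρ(g(a))` in an enumeration of the ordinals up to `c(y_g, a)`, where `a = (y_g, z)`, and
  let `f(a)` be the element with index `col(z)` in the enumeration of those up to `c(y', a)`; then
  `f` agrees with each `g ∈ D` somewhere, so `D` is not dominating.
* Case 2: otherwise there are `M_m : 𝔠 × τ → τ` (`m ∈ D`) such that each `col : 𝔠 × τ → τ` is
  everywhere different from some `M_m`. For `h : 𝔠 → 𝔠` use `col(y, β) = Y_β(h(y))`: so
  `h(y) < f_m(y)` for all `y`, where `f_m(y)` depends only on `M_m(y, ·)`. Take different points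
  `x(y, β) ∉ B_y`. The functions `x(y, β) ↦ ρ⁻¹(Y_β(f_m(y)))` (`m ∈ D`) are unbounded for `≠*_I`:
  given `u`, let `h(y)` be the `a` for `Ψ(β) = ρ(u(x(y, β)))`, and take `m` with `h < f_m`
  everywhere; then for each `y` the `m`-th function agrees with `u` at some `x(y, β) ∉ B_y`.

Finally `𝔡(≠*_∅) ≤ 𝔡(≠*_J)` (in ZFC) by a Bernstein partition.
-/

set_option autoImplicit false

open Cardinal MeasureTheory

namespace Pool.Agent.Results.MP_531aff_lc.SmallPowerset

open Pool.Agent.K4H92.HD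

/-- Let `μ` be a probability measure on Baire space without point masses, `I` one of the ideals
of the `μ`-null sets, of the meagre sets and of the subsets of `σ`-compact sets, and `J` one of
these or the trivial ideal `{∅}`.
(1) If `𝔠 = τ⁺` and `2^τ = 𝔠`, then `𝔟(≠*_I) ≤ 𝔡(≠*_J)`.
(2) If `2^{ℵ₁} = ℵ₂`, then `𝔟(≠*_I) ≤ 𝔡(≠*_J)`. -/
theorem result (μ : Measure BS) [IsProbabilityMeasure μ] (h0 : ∀ x : BS, μ {x} = 0)
    (I J : Set (Set BS)) (hI : I = nullSets μ ∨ I = meagreSets ∨ I = sigmaCompactSets)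
    (hJ : J = nullSets μ ∨ J = meagreSets ∨ J = sigmaCompactSets ∨ J = {∅}) :
    (∀ τ : Cardinal.{0}, 𝔠 = Order.succ τ → 2 ^ τ = 𝔠 → bNe I ≤ dNe J) ∧
      ((2 : Cardinal.{0}) ^ (ℵ₁ : Cardinal.{0}) = ℵ_ 2 → bNe I ≤ dNe J) := by
  have hIg : Good I := by
    rcases hI with rfl | rfl | rfl
    · exact good_null μ h0
    · exact good_meagre
    · exact good_sigmaCompact
  have hle : dNe {∅} ≤ dNe J := by
    rcases hJ with rfl | rfl | rfl | rfl
    · exact dNe_empty_le (good_null μ h0)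
    · exact dNe_empty_le good_meagre
    · exact dNe_empty_le good_sigmaCompact
    · exact le_rfl
  have gen : ∀ τ : Cardinal.{0}, 𝔠 = Order.succ τ → 2 ^ τ = 𝔠 → bNe I ≤ dNe J :=
    fun τ hc h2 => (Succ.main hc h2 hIg).trans hle
  refine ⟨gen, fun h2 => ?_⟩
  have hs : (ℵ_ 2 : Cardinal.{0}) = Order.succ ℵ₁ := by
    rw [succ_aleph, one_add_one_eq_two]
  have hcle : (𝔠 : Cardinal.{0}) ≤ ℵ_ 2 := by
    rw [← h2, ← two_power_aleph0]
    exact power_le_power_left two_ne_zero (aleph0_le_aleph 1)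
  rcases hcle.lt_or_eq with hlt | heq
  · rw [hs, Order.lt_succ_iff] at hlt
    have hch : (𝔠 : Cardinal.{0}) = ℵ₁ := le_antisymm hlt aleph_one_le_continuum
    exact gen ℵ₀ (by rw [hch, succ_aleph0]) two_power_aleph0
  · exact gen ℵ₁ (heq.trans hs) (h2.trans heq.symm)

end Pool.Agent.Results.MP_531aff_lc.SmallPowerset
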