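import Pool.Agent.K4H92.HD.Ideals

/-!
# `𝔟(≠*_I) ≤ 𝔡(≠*_J)` if `𝔠` is a successor cardinal and `cov(I) = 𝔠`

The definitions are in `Pool/Agent/K4H92/HD/Core.lean` (`BS`, `EvDiff`, `Bad`, `bNe`, `dNe`) and
`Pool/Agent/K4H92/HD/Main.lean` (`cov`, `nullSets`, `meagreSets`, `sigmaCompactSets`).

Proof. Let `𝔠 = τ⁺` and let `𝔟_𝔠` be the least size of a family of functions `𝔠 → 𝔠` which is
unbounded modulo bounded sets.

* `𝔟(≠*_I) ≤ 𝔟_𝔠` if `cov(I) = 𝔠`: let `p_α` (`α < 𝔠`) be a Luzin sequence for `I`, enumerate
  Baire space as `r_α` and the ordinals below `α` as `e_α(t)` (`t < τ`). If the functions `f` form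
  an unbounded family, then no `g` is `≠*_I` all functions `p_α ↦ r(e_{f(α)}(t))`.
* `𝔟_𝔠 ≤ 𝔡(≠*_∅)`: given fewer than `𝔟_𝔠` functions `g` on `𝔠`, their indices are bounded by a
  function `h`, hence `g(α) = r(e_{h(α)}(t))` for unboundedly many `α` and a fixed `t = t_g < τ`;
  the functions which give the next such `α` are bounded by a function `k`. Take pairwise disjoint
  intervals `(c_j, k(c_j))` (`j < 𝔠`) and colours `t_j < τ` such that each colour occurs cofinally,
  and let `f(α) = r(e_{h(α)}(t_j))` on the `j`-th interval. Then `f` takes the same value as each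
  `g` at some point.
* `𝔡(≠*_∅) ≤ 𝔡(≠*_J)` (in ZFC) by a Bernstein partition.
-/

set_option autoImplicit false

open Cardinal MeasureTheory

namespace Pool.Agent.Results.MP_531aff_lc.SuccessorContinuum

open Pool.Agent.K4H92.HD

/-- Let `μ` be a probability measure on Baire space without point masses. If `𝔠` is a successor
cardinal, `I` is one of the ideals of the `μ`-null sets, of the meagre sets and of the subsets of
`σ`-compact sets, and fewer than `𝔠` members of `I` never cover Baire space, then
`𝔟(≠*_I) ≤ 𝔡(≠*_J)` for `J` each of these three ideals and the trivial ideal `{∅}`. -/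
theorem result (μ : Measure BS) [IsProbabilityMeasure μ] (h0 : ∀ x : BS, μ {x} = 0)
    (I J : Set (Set BS)) (hI : I = nullSets μ ∨ I = meagreSets ∨ I = sigmaCompactSets)
    (hJ : J = nullSets μ ∨ J = meagreSets ∨ J = sigmaCompactSets ∨ J = {∅})
    (τ : Cardinal.{0}) (hc : 𝔠 = Order.succ τ) (hcov : 𝔠 ≤ cov I) : bNe I ≤ dNe J := by
  have hIg : Good I := by
    rcases hI with rfl | rfl | rfl
    · exact good_null μ h0
    · exact good_meagre
    · exact good_sigmaCompact
  have hle : dNe {∅} ≤ dNe J := by
    rcases hJ with rfl | rfl | rfl | rfl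
    · exact dNe_empty_le (good_null μ h0)
    · exact dNe_empty_le good_meagre
    · exact dNe_empty_le good_sigmaCompact
    · exact le_rfl
  exact (main hc I {∅} (lus_good hc hIg hcov) lus_empty rfl).trans hle

end Pool.Agent.Results.MP_531aff_lc.SuccessorContinuum
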